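import Pool.Agent.Work.MP_b5407d_lp_helper37.Growth

set_option autoImplicit false
open MeasureTheory Real Filter Topology
open scoped ContDiff

namespace Pool.Agent.Work.LPBM.helper37

variable {n : ℕ} {ι : Type} [Fintype ι]

lemma Test.pd {u : E n → ℝ} (hu : Test u) (j : Fin n) : Test (LPBM.pd j u) := by
  refine ⟨?_, ?_⟩
  · unfold LPBM.pd
    exact (hu.1.fderiv_right (m := ∞) (by simp)).clm_apply contDiff_const
  · have := hu.2.fderiv (𝕜 := ℝ)
    refine this.comp_left (g := fun L : E n →L[ℝ] ℝ => L (EuclideanSpace.single j (1:ℝ))) (by simp)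

lemma Test.cont {u : E n → ℝ} (hu : Test u) : Continuous u := hu.1.continuous

lemma Test.gr {u : E n → ℝ} (hu : Test u) {k : ℝ} {θ : ι → E n} {h : ι → ℝ} : Gr k θ h u := by
  obtain ⟨C, hC⟩ := hu.2.exists_bound_of_continuous (Test.cont hu)
  exact Gr.bdd C (fun x => by simpa using hC x)

lemma Gr.pow {k : ℝ} {θ : ι → E n} {h : ι → ℝ} {F : E n → ℝ} (hF : Gr k θ h F) (m : ℕ) :
    Gr k θ h (fun x => F x ^ m) := by
  induction m with
  | zero => simpa using Gr.const (k := k) (θ := θ) (h := h) 1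
  | succ m ih => simpa [pow_succ] using ih.mul hF

section
variable (k : ℝ) (θ : ι → E n) (h : ι → ℝ) (f : ι → ℝ) (η : E n)

lemma Yf_contDiff (hS : Stmt_SW0) : ContDiff ℝ 1 (Yf k θ h f η) := by
  have h1 : ContDiff ℝ 1 G1 := hS.2.2.2.2.1
  unfold Yf
  refine ContDiff.add (contDiff_const.inner ℝ contDiff_id) (ContDiff.sum fun i _ => ?_)
  refine ContDiff.mul (contDiff_const.mul (h1.comp ?_)) contDiff_const
  exact contDiff_const.mul ((contDiff_const.inner ℝ contDiff_id).sub contDiff_const)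

lemma pd_Yf (hS : Stmt_SW0) (j : Fin n) (x : E n) :
    pd j (Yf k θ h f η) x = η j + ∑ i, k ^ 2 * G2 (k * (inner ℝ (θ i) x - h i)) * f i * θ i j := by
  have h2 : ∀ i, HasFDerivAt (fun x : E n => k * G1 (k * (inner ℝ (θ i) x - h i)) * f i)
      ((k * (G2 (k * (inner ℝ (θ i) x - h i)) * k) * f i) • (innerSL ℝ (θ i))) x := by
    intro i
    have a1 : HasFDerivAt (fun x : E n => (inner ℝ (θ i) x : ℝ)) (innerSL ℝ (θ i)) x :=
      (innerSL ℝ (θ i)).hasFDerivAt
    have a2 : HasFDerivAt (fun x : E n => k * ((inner ℝ (θ i) x : ℝ) - h i)) (k • (innerSL ℝ (θ i))) x :=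
      (a1.sub_const (h i)).const_mul k
    have a3 := (hS.2.1 (k * (inner ℝ (θ i) x - h i))).comp_hasFDerivAt x a2
    have a4 := (a3.const_mul k).mul_const (f i)
    refine a4.congr_fderiv ?_
    ext v
    simp
    ring
  have h3 : HasFDerivAt (Yf k θ h f η) (innerSL ℝ η + ∑ i, ((k * (G2 (k * (inner ℝ (θ i) x - h i)) * k) * f i) • (innerSL ℝ (θ i)))) x := by
    have b1 : HasFDerivAt (fun x : E n => (inner ℝ η x : ℝ)) (innerSL ℝ η) x := (innerSL ℝ η).hasFDerivAt
    exact b1.add (HasFDerivAt.fun_sum fun i _ => h2 i)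
  unfold pd
  rw [h3.fderiv]
  simp [EuclideanSpace.inner_single_right]
  refine Finset.sum_congr rfl fun i _ => ?_
  ring

end

lemma Gr.Yf {k : ℝ} {θ : ι → E n} {h : ι → ℝ} (hS : Stmt_SW0) (f : ι → ℝ) (η : E n) :
    Gr k θ h (LPBM.Yf k θ h f η) := by
  unfold LPBM.Yf
  refine (Gr.inner_left η).add (Gr.sumU fun i => ?_)
  exact ((Gr.const k).mul (Gr.g1 hS i)).mul (Gr.const (f i))

/-- the pointwise identity -/
lemma ptw_id (hV : Stmt_VD) (hS : Stmt_SW0) (k : ℝ) (θ : ι → E n) (h : ι → ℝ) (l : E n) (f : ι → ℝ) (η : E n)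
    (u : E n → ℝ) (x : E n) :
    2 * (∑ j, pd j (Yf k θ h f η) x * pd j u x) - hs u x - hq (Vpot k θ h l) u x
      - ∑ i, k ^ 2 * G2 (k * (inner ℝ (θ i) x - h i)) * f i ^ 2
    = 2 * (∑ j, η j * pd j u x) - hs u x
      - ∑ i, k ^ 2 * G2 (k * (inner ℝ (θ i) x - h i)) * (f i - ∑ j, θ i j * pd j u x) ^ 2 := by
  have e1 : hq (Vpot k θ h l) u x
      = ∑ i, k ^ 2 * G2 (k * (inner ℝ (θ i) x - h i)) * (∑ j, θ i j * pd j u x) ^ 2 := by
    unfold hq
    have : ∀ i' j, pd i' (pd j (Vpot k θ h l)) x * pd i' u x * pd j u x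
        = ∑ i, k ^ 2 * G2 (k * (inner ℝ (θ i) x - h i)) * ((θ i i' * pd i' u x) * (θ i j * pd j u x)) := by
      intro i' j
      rw [(hV n ι k θ h l).2.2 i' j x, Finset.sum_mul, Finset.sum_mul]
      refine Finset.sum_congr rfl fun i _ => ?_
      ring
    simp_rw [this]
    simp_rw [sq (∑ j, θ _ j * pd j u x), Finset.sum_mul_sum, Finset.mul_sum]
    rw [Finset.sum_comm]
    rw [Finset.sum_comm]
    rw [Finset.sum_congr rfl (fun i' _ => Finset.sum_comm)]
    rw [Finset.sum_comm]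
  have e2 : ∑ j, pd j (Yf k θ h f η) x * pd j u x
      = ∑ j, η j * pd j u x + ∑ i, k ^ 2 * G2 (k * (inner ℝ (θ i) x - h i)) * f i * (∑ j, θ i j * pd j u x) := by
    simp_rw [pd_Yf k θ h f η hS, add_mul, Finset.sum_add_distrib, Finset.sum_mul, Finset.mul_sum]
    congr 1
    rw [Finset.sum_comm]
    refine Finset.sum_congr rfl fun i _ => Finset.sum_congr rfl fun j _ => ?_
    ring
  rw [e1, e2]
  have e3 : ∀ i, k ^ 2 * G2 (k * (inner ℝ (θ i) x - h i)) * (f i - ∑ j, θ i j * pd j u x) ^ 2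
      = k ^ 2 * G2 (k * (inner ℝ (θ i) x - h i)) * f i ^ 2
        - 2 * (k ^ 2 * G2 (k * (inner ℝ (θ i) x - h i)) * f i * (∑ j, θ i j * pd j u x))
        + k ^ 2 * G2 (k * (inner ℝ (θ i) x - h i)) * (∑ j, θ i j * pd j u x) ^ 2 := by
    intro i; ring
  simp_rw [e3]
  rw [Finset.sum_add_distrib, Finset.sum_sub_distrib, ← Finset.mul_sum]
  ring


/-- pointwise bound for the third term -/
lemma ptw_third (hS : Stmt_SW0) (k : ℝ) (θ : ι → E n) (h : ι → ℝ) (f : ι → ℝ) (hm r : ℝ) (hk : 0 < k)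
    (hhm : 0 < hm) (hr : 0 < r) (hh : ∀ i, hm ≤ h i) (hθ : ∀ i, r * ‖θ i‖ ≤ h i) (τ : Fin n → ℝ) (x : E n) :
    ∑ i, k * G1 (k * (inner ℝ (θ i) x - h i)) * (f i ^ 2 / h i)
      ≤ 21 / 20 * (1 / r ^ 2) * ((∑ j, τ j ^ 2) * Sx k θ h x)
        + 21 / (k * hm) * ∑ i, k ^ 2 * G2 (k * (inner ℝ (θ i) x - h i)) * (f i - ∑ j, θ i j * τ j) ^ 2 := by
  unfold Sx
  rw [Finset.mul_sum, Finset.mul_sum, Finset.mul_sum, ← Finset.sum_add_distrib]
  refine Finset.sum_le_sum fun i _ => ?_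
  set s := inner ℝ (θ i) x - h i with hs
  have hhi : 0 < h i := lt_of_lt_of_le hhm (hh i)
  have g1 : 0 ≤ G1 (k * s) := hS.2.2.2.2.2.2.1 _
  have g2 : G1 (k * s) ≤ G2 (k * s) := hS.2.2.2.2.2.2.2.1 _
  set t := ∑ j, θ i j * τ j with ht
  set N := ∑ j, τ j ^ 2 with hN
  have hN0 : 0 ≤ N := Finset.sum_nonneg fun j _ => by positivity
  -- Cauchy-Schwarz
  have cs : t ^ 2 ≤ ‖θ i‖ ^ 2 * N := by
    rw [EuclideanSpace.norm_sq_eq]
    have := Finset.sum_mul_sq_le_sq_mul_sq Finset.univ (fun j => θ i j) τ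
    simpa [ht, hN] using this
  have hq : r ^ 2 * ‖θ i‖ ^ 2 ≤ h i ^ 2 := by
    have := mul_self_le_mul_self (by positivity) (hθ i)
    nlinarith
  have young : f i ^ 2 ≤ 21 / 20 * t ^ 2 + 21 * (f i - t) ^ 2 := by
    nlinarith [sq_nonneg (f i - t - t / 20), sq_nonneg (20 * (f i - t) - t)]
  have step1 : t ^ 2 / h i ≤ h i * N / r ^ 2 := by
    rw [div_le_div_iff₀ hhi (by positivity)]
    calc t ^ 2 * r ^ 2 ≤ (‖θ i‖ ^ 2 * N) * r ^ 2 := by gcongr
      _ = (r ^ 2 * ‖θ i‖ ^ 2) * N := by ring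
      _ ≤ h i ^ 2 * N := by gcongr
      _ = h i * N * h i := by ring
  have step2 : f i ^ 2 / h i ≤ 21 / 20 * (h i * N / r ^ 2) + 21 * ((f i - t) ^ 2 / hm) := by
    have a1 : f i ^ 2 / h i ≤ (21 / 20 * t ^ 2 + 21 * (f i - t) ^ 2) / h i := by gcongr
    have a2 : (21 / 20 * t ^ 2 + 21 * (f i - t) ^ 2) / h i = 21 / 20 * (t ^ 2 / h i) + 21 * ((f i - t) ^ 2 / h i) := by
      ring
    have a3 : (f i - t) ^ 2 / h i ≤ (f i - t) ^ 2 / hm := by
      have := hh i
      gcongr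
    linarith
  have step3 : G1 (k * s) * h i ≤ G1 (k * s) * inner ℝ (θ i) x := by
    by_cases hs0 : s ≤ 0
    · have : G1 (k * s) = 0 := by
        unfold G1
        rw [if_pos (mul_nonpos_of_nonneg_of_nonpos hk.le hs0)]
      rw [this]; simp
    · push Not at hs0
      exact mul_le_mul_of_nonneg_left (by rw [hs] at hs0; linarith) g1
  calc k * G1 (k * s) * (f i ^ 2 / h i)
      ≤ k * G1 (k * s) * (21 / 20 * (h i * N / r ^ 2) + 21 * ((f i - t) ^ 2 / hm)) := by gcongr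
    _ = 21 / 20 * (1 / r ^ 2) * (N * (k * (G1 (k * s) * h i))) + 21 / (k * hm) * (k ^ 2 * G1 (k * s) * (f i - t) ^ 2) := by
        field_simp
    _ ≤ 21 / 20 * (1 / r ^ 2) * (N * (k * (G1 (k * s) * inner ℝ (θ i) x))) + 21 / (k * hm) * (k ^ 2 * G2 (k * s) * (f i - t) ^ 2) := by
        gcongr
    _ = 21 / 20 * (1 / r ^ 2) * (N * (k * G1 (k * s) * inner ℝ (θ i) x)) + 21 / (k * hm) * (k ^ 2 * G2 (k * s) * (f i - t) ^ 2) := by
        ring

lemma Gr.Sx {k : ℝ} {θ : ι → E n} {h : ι → ℝ} (hS : Stmt_SW0) : Gr k θ h (LPBM.Sx k θ h) := by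
  unfold LPBM.Sx
  exact Gr.sumU fun i => ((Gr.const k).mul (Gr.g1 hS i)).mul (Gr.inner_left (θ i))

theorem stmt_LOC (hS : Stmt_SW0) (hI : Stmt_INT) (hV : Stmt_VD) (hH : Stmt_HSJ) (hT : Stmt_TRB)
    (hE : Stmt_ETA) : Stmt_LOC := by
  intro n ι _ p k θ h l hm r R hn hSp hp hk hhm hr hR hh hkh hpR hp1 hθ hPR hPl f ε hε
  obtain ⟨η, hη⟩ := hE n ι k θ h l hk hSp f
  refine ⟨η, ?_⟩
  obtain ⟨C, hC⟩ := hT n ι k θ h l hm R hn hSp hk hhm hR hh hkh hPR hPl
  have cW : Continuous (W k θ h l) := cont_W hV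
  have hZ : 0 < ∫ x, W k θ h l x := integral_W_pos hI hV hk hSp
  set Z := ∫ x, W k θ h l x with hZd
  have cY : ContDiff ℝ 1 (Yf k θ h f η) := Yf_contDiff k θ h f η hS
  have gY : Gr k θ h (Yf k θ h f η) := Gr.Yf hS f η
  have cG1 : Continuous G1 := hS.2.2.2.2.1.continuous
  have cG2 : Continuous G2 := hS.2.2.1
  have cs : ∀ i, Continuous (fun x : E n => k * ((inner ℝ (θ i) x : ℝ) - h i)) := fun i =>
    continuous_const.mul ((continuous_const.inner continuous_id).sub continuous_const)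
  have cS : Continuous (Sx k θ h) := by
    unfold Sx
    exact continuous_finsetSum _ fun i _ => (continuous_const.mul (cG1.comp (cs i))).mul
      (continuous_const.inner continuous_id)
  -- choice of the small parameter
  set D : ℝ := 1 + 2 * (∑ j, |η j|) + 21 / 20 * (1 / r ^ 2) * (|C| * n) with hD
  have hD1 : 1 ≤ D := by
    have : 0 ≤ ∑ j, |η j| := Finset.sum_nonneg fun j _ => abs_nonneg _
    have h2 : 0 ≤ 21 / 20 * (1 / r ^ 2) * (|C| * n) := by positivity
    linarith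
  set ε' : ℝ := min 1 (ε * Z / D) with hε'
  have e0 : 0 < ε' := lt_min one_pos (by positivity)
  have e1 : ε' ≤ 1 := min_le_left _ _
  have e2 : ε' * D ≤ ε * Z := by
    have : ε' ≤ ε * Z / D := min_le_right _ _
    rwa [le_div_iff₀ (by linarith)] at this
  have iW : Integrable (wt (Vpot k θ h l)) := by
    have := (Gr.const (k := k) (θ := θ) (h := h) 1).integrable (l := l) hI hk hSp continuous_const cW
    simp only [one_mul] at this
    exact this
  obtain ⟨u, hu, hu1, hu2⟩ := hH n (Vpot k θ h l) (hV n ι k θ h l).1 iW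
    (fun j => by
      have := ((Gr.coord (k := k) (θ := θ) (h := h) j).pow 2).integrable (l := l) hI hk hSp (by fun_prop) cW
      exact this)
    (Yf k θ h f η) cY
    (by
      have := (gY.pow 2).integrable (l := l) hI hk hSp (cY.continuous.pow 2) cW
      exact this) ε' e0
  set m := mean (Vpot k θ h l) (Yf k θ h f η) with hmd
  -- the gradient means are small
  have hu1' : ∀ j : Fin n, |∫ x, pd j u x * W k θ h l x| ≤ ε' := by
    intro j
    have h1 := hu1 j
    have h2 := hη j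
    have h3 : ∫ x : E n, x j * (Yf k θ h f η x - m) * wt (Vpot k θ h l) x = 0 := h2
    rw [h3, sub_zero] at h1
    exact h1
  -- test function facts
  have tu : ∀ j, Test (pd j u) := fun j => Test.pd hu j
  have cpu : ∀ j, Continuous (pd j u) := fun j => Test.cont (tu j)
  have chs : Continuous (hs u) := by
    unfold hs
    exact continuous_finsetSum _ fun i _ => continuous_finsetSum _ fun j _ => (Test.cont (Test.pd (tu j) i)).pow 2
  have ghs : Gr k θ h (hs u) := by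
    unfold hs
    exact Gr.sumU fun i => Gr.sumU fun j => (Test.gr (Test.pd (tu j) i)).pow 2
  -- the functions
  set WL : E n → ℝ := fun x => ∑ i, k ^ 2 * G2 (k * (inner ℝ (θ i) x - h i)) * (f i - ∑ j, θ i j * pd j u x) ^ 2 with hWL
  set F2 : E n → ℝ := fun x => ∑ i, k ^ 2 * G2 (k * (inner ℝ (θ i) x - h i)) * f i ^ 2 with hF2
  set F3 : E n → ℝ := fun x => ∑ i, k * G1 (k * (inner ℝ (θ i) x - h i)) * (f i ^ 2 / h i) with hF3
  set T : E n → ℝ := fun x => (∑ j, (pd j u x) ^ 2) * Sx k θ h x with hTd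
  have cWL : Continuous WL := by
    refine continuous_finsetSum _ fun i _ => (continuous_const.mul (cG2.comp (cs i))).mul ?_
    exact (continuous_const.sub (continuous_finsetSum _ fun j _ => continuous_const.mul (cpu j))).pow 2
  have gWL : Gr k θ h WL := by
    refine Gr.sumU fun i => ((Gr.const (k ^ 2)).mul (Gr.g2 i)).mul (Gr.pow ?_ 2)
    have : Gr k θ h (fun x => f i + ∑ j, (-θ i j) * pd j u x) :=
      (Gr.const (f i)).add (Gr.sumU fun j => (Gr.const (-θ i j)).mul (Test.gr (tu j)))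
    refine this.mono fun x => le_of_eq ?_
    congr 1
    simp [Finset.sum_neg_distrib, sub_eq_add_neg]
  have cF2 : Continuous F2 := continuous_finsetSum _ fun i _ => (continuous_const.mul (cG2.comp (cs i))).mul continuous_const
  have gF2 : Gr k θ h F2 := Gr.sumU fun i => ((Gr.const (k ^ 2)).mul (Gr.g2 i)).mul (Gr.const _)
  have cF3 : Continuous F3 := continuous_finsetSum _ fun i _ => (continuous_const.mul (cG1.comp (cs i))).mul continuous_const
  have gF3 : Gr k θ h F3 := Gr.sumU fun i => ((Gr.const k).mul (Gr.g1 hS i)).mul (Gr.const _)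
  have cT : Continuous T := (continuous_finsetSum _ fun j _ => (cpu j).pow 2).mul cS
  have gT : Gr k θ h T := (Gr.sumU fun j => (Test.gr (tu j)).pow 2).mul (Gr.Sx hS)
  have cA : Continuous (fun x => (Yf k θ h f η x - m) ^ 2) := (cY.continuous.sub continuous_const).pow 2
  have gA : Gr k θ h (fun x => (Yf k θ h f η x - m) ^ 2) := by
    refine Gr.pow ?_ 2
    have := gY.add (Gr.const (-m))
    simpa [sub_eq_add_neg] using this
  have iA := gA.integrable (l := l) hI hk hSp cA cW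
  have iF2 := gF2.integrable (l := l) hI hk hSp cF2 cW
  have iF3 := gF3.integrable (l := l) hI hk hSp cF3 cW
  have iWL := gWL.integrable (l := l) hI hk hSp cWL cW
  have iT := gT.integrable (l := l) hI hk hSp cT cW
  have iH := ghs.integrable (l := l) hI hk hSp chs cW
  have ip : ∀ j, Integrable (fun x => pd j u x * W k θ h l x) := fun j =>
    (Test.gr (tu j)).integrable (l := l) hI hk hSp (cpu j) cW
  -- numerator
  unfold LI
  rw [div_le_iff₀ hZ]
  have num : ∫ x, ((Yf k θ h f η x - mean (Vpot k θ h l) (Yf k θ h f η)) ^ 2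
      - ∑ i, k ^ 2 * G2 (k * (inner ℝ (θ i) x - h i)) * f i ^ 2
      + (1 - p) * ∑ i, k * G1 (k * (inner ℝ (θ i) x - h i)) * (f i ^ 2 / h i)) * W k θ h l x
      = (∫ x, (Yf k θ h f η x - m) ^ 2 * W k θ h l x) - (∫ x, F2 x * W k θ h l x)
        + (1 - p) * (∫ x, F3 x * W k θ h l x) := by
    have i12 : Integrable (fun x => (Yf k θ h f η x - m) ^ 2 * W k θ h l x - F2 x * W k θ h l x) := iA.sub iF2
    rw [← integral_sub iA iF2, ← integral_const_mul, ← integral_add i12 (iF3.const_mul _)]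
    refine integral_congr_ae (Eventually.of_forall fun x => ?_)
    simp only [hF2, hF3, hmd]
    ring
  rw [num]
  -- HSJ
  have b1 : (∫ x, (Yf k θ h f η x - m) ^ 2 * W k θ h l x) - (∫ x, F2 x * W k θ h l x)
      ≤ ε' + 2 * (∑ j, η j * ∫ x, pd j u x * W k θ h l x) - (∫ x, hs u x * W k θ h l x) - (∫ x, WL x * W k θ h l x) := by
    have c1 : ∫ x, (Yf k θ h f η x - m) ^ 2 * W k θ h l x
        ≤ ε' + ∫ x, (2 * (∑ j, pd j (Yf k θ h f η) x * pd j u x) - hs u x - hq (Vpot k θ h l) u x) * W k θ h l x := hu2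
    have c2 : ∫ x, (2 * (∑ j, pd j (Yf k θ h f η) x * pd j u x) - hs u x - hq (Vpot k θ h l) u x) * W k θ h l x
        = 2 * (∑ j, η j * ∫ x, pd j u x * W k θ h l x) - (∫ x, hs u x * W k θ h l x) - (∫ x, WL x * W k θ h l x)
          + (∫ x, F2 x * W k θ h l x) := by
      simp_rw [← integral_const_mul]
      have i1 : Integrable (fun x => 2 * ∑ j, η j * (pd j u x * W k θ h l x)) :=
        (integrable_finsetSum _ fun j _ => (ip j).const_mul _).const_mul _
      have i2 : Integrable (fun x => 2 * ∑ j, η j * (pd j u x * W k θ h l x) - hs u x * W k θ h l x) := i1.sub iH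
      have i3 : Integrable (fun x => 2 * ∑ j, η j * (pd j u x * W k θ h l x) - hs u x * W k θ h l x
        - WL x * W k θ h l x) := i2.sub iWL
      rw [← integral_finsetSum _ (fun j _ => (ip j).const_mul _), ← integral_const_mul,
        ← integral_sub i1 iH, ← integral_sub i2 iWL, ← integral_add i3 iF2]
      refine integral_congr_ae (Eventually.of_forall fun x => ?_)
      have := ptw_id hV hS k θ h l f η u x
      simp only [hF2, hWL]
      have e : ∑ j, η j * (pd j u x * W k θ h l x) = (∑ j, η j * pd j u x) * W k θ h l x := by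
        rw [Finset.sum_mul]; refine Finset.sum_congr rfl fun j _ => ?_; ring
      rw [e]
      linear_combination (W k θ h l x) * this
    linarith
  -- third term
  have b2 : ∫ x, F3 x * W k θ h l x ≤ 21 / 20 * (1 / r ^ 2) * (∫ x, T x * W k θ h l x)
      + 21 / (k * hm) * (∫ x, WL x * W k θ h l x) := by
    rw [← integral_const_mul, ← integral_const_mul, ← integral_add (iT.const_mul _) (iWL.const_mul _)]
    refine integral_mono iF3 ((iT.const_mul _).add (iWL.const_mul _)) fun x => ?_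
    have := ptw_third hS k θ h f hm r hk hhm hr hh hθ (fun j => pd j u x) x
    have hw : 0 < W k θ h l x := W_pos x
    calc F3 x * W k θ h l x ≤ (21 / 20 * (1 / r ^ 2) * T x + 21 / (k * hm) * WL x) * W k θ h l x :=
          mul_le_mul_of_nonneg_right this hw.le
      _ = 21 / 20 * (1 / r ^ 2) * (T x * W k θ h l x) + 21 / (k * hm) * (WL x * W k θ h l x) := by ring
  have b3 : ∫ x, T x * W k θ h l x ≤ (3.63 * n + 2.82) * R ^ 2 * (∫ x, hs u x * W k θ h l x)
          + C * ∑ j, (∫ x, pd j u x * W k θ h l x) ^ 2 := hC u hu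
  have b4 : C * ∑ j, (∫ x, pd j u x * W k θ h l x) ^ 2 ≤ |C| * n * ε' := by
    have d1 : ∑ j : Fin n, (∫ x, pd j u x * W k θ h l x) ^ 2 ≤ n * ε' := by
      have : ∀ j ∈ (Finset.univ : Finset (Fin n)), (∫ x, pd j u x * W k θ h l x) ^ 2 ≤ ε' := by
        intro j _
        have h1 := hu1' j
        rw [← sq_abs]
        have h0 := abs_nonneg (∫ x, pd j u x * W k θ h l x)
        nlinarith
      have := Finset.sum_le_card_nsmul _ _ _ this
      simpa using this
    have d0 : 0 ≤ ∑ j : Fin n, (∫ x, pd j u x * W k θ h l x) ^ 2 := Finset.sum_nonneg fun j _ => sq_nonneg _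
    calc C * ∑ j, (∫ x, pd j u x * W k θ h l x) ^ 2 ≤ |C| * ∑ j, (∫ x, pd j u x * W k θ h l x) ^ 2 :=
          mul_le_mul_of_nonneg_right (le_abs_self C) d0
      _ ≤ |C| * (n * ε') := mul_le_mul_of_nonneg_left d1 (abs_nonneg _)
      _ = |C| * n * ε' := by ring
  have b5 : 2 * (∑ j, η j * ∫ x, pd j u x * W k θ h l x) ≤ 2 * (∑ j, |η j|) * ε' := by
    have : ∑ j, η j * ∫ x, pd j u x * W k θ h l x ≤ (∑ j, |η j|) * ε' := by
      rw [Finset.sum_mul]
      refine Finset.sum_le_sum fun j _ => ?_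
      calc η j * ∫ x, pd j u x * W k θ h l x ≤ |η j * ∫ x, pd j u x * W k θ h l x| := le_abs_self _
        _ = |η j| * |∫ x, pd j u x * W k θ h l x| := abs_mul _ _
        _ ≤ |η j| * ε' := mul_le_mul_of_nonneg_left (hu1' j) (abs_nonneg _)
    linarith
  have H0 : 0 ≤ ∫ x, hs u x * W k θ h l x := integral_nonneg fun x =>
    mul_nonneg (Finset.sum_nonneg fun i _ => Finset.sum_nonneg fun j _ => sq_nonneg _) (W_pos x).le
  have WL0 : 0 ≤ ∫ x, WL x * W k θ h l x := integral_nonneg fun x =>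
    mul_nonneg (Finset.sum_nonneg fun i _ => mul_nonneg (mul_nonneg (sq_nonneg _) (G2_nonneg _)) (sq_nonneg _)) (W_pos x).le
  set HH := ∫ x, hs u x * W k θ h l x with hHH
  set WW := ∫ x, WL x * W k θ h l x with hWW
  set TT := ∫ x, T x * W k θ h l x with hTT
  set S2 := C * ∑ j, (∫ x, pd j u x * W k θ h l x) ^ 2 with hS2
  have hp0 : 0 < 1 - p := by linarith
  have hn1 : (1 : ℝ) ≤ n := by exact_mod_cast hn
  have hkm : (1000 : ℝ) ≤ k * hm := by nlinarith
  have f1 : (1 - p) * (21 / (k * hm) * WW) ≤ WW := by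
    have g1 : 21 / (k * hm) ≤ 1 := by
      rw [div_le_one (by linarith)]; linarith
    have g2 : 21 / (k * hm) * WW ≤ 1 * WW := mul_le_mul_of_nonneg_right g1 WL0
    have g3 : 0 ≤ 21 / (k * hm) * WW := by positivity
    calc (1 - p) * (21 / (k * hm) * WW) ≤ 1 * (21 / (k * hm) * WW) := mul_le_mul_of_nonneg_right hp1 g3
      _ ≤ WW := by linarith
  have f2 : (1 - p) * (21 / 20 * (1 / r ^ 2) * ((3.63 * n + 2.82) * R ^ 2 * HH)) ≤ HH := by
    have g1 : (1 - p) * (21 / 20 * (1 / r ^ 2) * ((3.63 * n + 2.82) * R ^ 2)) ≤ 1 := by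
      have g2 : (1 - p) * (21 / 20 * (1 / r ^ 2) * ((3.63 * n + 2.82) * R ^ 2))
          = ((1 - p) * (21 / 20 * (3.63 * n + 2.82)) * R ^ 2) / r ^ 2 := by
        field_simp
      rw [g2, div_le_one (by positivity)]
      refine le_trans ?_ hpR
      have g3 : (21 / 20 * (3.63 * (n : ℝ) + 2.82)) ≤ 3.82 * n + 2.97 := by linarith
      gcongr
    calc (1 - p) * (21 / 20 * (1 / r ^ 2) * ((3.63 * n + 2.82) * R ^ 2 * HH))
        = ((1 - p) * (21 / 20 * (1 / r ^ 2) * ((3.63 * n + 2.82) * R ^ 2))) * HH := by ring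
      _ ≤ 1 * HH := mul_le_mul_of_nonneg_right g1 H0
      _ = HH := one_mul _
  have f3 : (1 - p) * (21 / 20 * (1 / r ^ 2) * S2) ≤ 21 / 20 * (1 / r ^ 2) * (|C| * n) * ε' := by
    have g0 : 0 ≤ 21 / 20 * (1 / r ^ 2) := by positivity
    have g1 : 21 / 20 * (1 / r ^ 2) * S2 ≤ 21 / 20 * (1 / r ^ 2) * (|C| * n * ε') := mul_le_mul_of_nonneg_left b4 g0
    have g2 : 0 ≤ 21 / 20 * (1 / r ^ 2) * (|C| * n * ε') := by positivity
    calc (1 - p) * (21 / 20 * (1 / r ^ 2) * S2) ≤ (1 - p) * (21 / 20 * (1 / r ^ 2) * (|C| * n * ε')) :=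
          mul_le_mul_of_nonneg_left g1 hp0.le
      _ ≤ 1 * (21 / 20 * (1 / r ^ 2) * (|C| * n * ε')) := mul_le_mul_of_nonneg_right hp1 g2
      _ = 21 / 20 * (1 / r ^ 2) * (|C| * n) * ε' := by ring
  have f4 : (1 - p) * ∫ x, F3 x * W k θ h l x ≤ HH + WW + 21 / 20 * (1 / r ^ 2) * (|C| * n) * ε' := by
    have g0 : 0 ≤ 21 / 20 * (1 / r ^ 2) := by positivity
    have g1 : 21 / 20 * (1 / r ^ 2) * TT ≤ 21 / 20 * (1 / r ^ 2) * ((3.63 * n + 2.82) * R ^ 2 * HH + S2) :=
      mul_le_mul_of_nonneg_left b3 g0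
    have g2 : ∫ x, F3 x * W k θ h l x ≤ 21 / 20 * (1 / r ^ 2) * ((3.63 * n + 2.82) * R ^ 2 * HH + S2)
        + 21 / (k * hm) * WW := by linarith
    have g3 := mul_le_mul_of_nonneg_left g2 hp0.le
    have g4 : (1 - p) * (21 / 20 * (1 / r ^ 2) * ((3.63 * n + 2.82) * R ^ 2 * HH + S2) + 21 / (k * hm) * WW)
        = (1 - p) * (21 / 20 * (1 / r ^ 2) * ((3.63 * n + 2.82) * R ^ 2 * HH))
          + (1 - p) * (21 / 20 * (1 / r ^ 2) * S2) + (1 - p) * (21 / (k * hm) * WW) := by ring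
    linarith
  have fin : ε' + 2 * (∑ j, |η j|) * ε' + 21 / 20 * (1 / r ^ 2) * (|C| * n) * ε' = ε' * D := by
    rw [hD]; ring
  linarith

end Pool.Agent.Work.LPBM.helper37
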