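import Pool.Agent.Work.MP_b5407d_lp.Interface

set_option autoImplicit false
open MeasureTheory Real Filter Topology
open scoped ContDiff

namespace Pool.Agent.Work.LPBM.helper37

variable {n : ℕ} {ι : Type} [Fintype ι]

lemma G2_nonneg (s : ℝ) : 0 ≤ G2 s := by
  unfold G2
  split_ifs with hs
  · exact le_rfl
  · have := add_one_le_exp s
    push Not at hs
    linarith

/-- base factor -/
noncomputable def Qb (k : ℝ) (θ : ι → E n) (h : ι → ℝ) (x : E n) : ℝ :=
  1 + ∑ i, G2 (k * (inner ℝ (θ i) x - h i))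

lemma one_le_Qb (k : ℝ) (θ : ι → E n) (h : ι → ℝ) (x : E n) : 1 ≤ Qb k θ h x := by
  unfold Qb
  have : 0 ≤ ∑ i, G2 (k * (inner ℝ (θ i) x - h i)) := Finset.sum_nonneg fun i _ => G2_nonneg _
  linarith

/-- growth condition -/
def Gr (k : ℝ) (θ : ι → E n) (h : ι → ℝ) (F : E n → ℝ) : Prop :=
  ∃ (C A : ℝ) (m : ℕ), 0 ≤ C ∧ 0 ≤ A ∧ ∀ x, |F x| ≤ C * (exp (A * ‖x‖) * Qb k θ h x ^ m)

variable {k : ℝ} {θ : ι → E n} {h : ι → ℝ} {l : E n}

lemma Gr.mono {F G : E n → ℝ} (hG : Gr k θ h G) (hFG : ∀ x, |F x| ≤ |G x|) : Gr k θ h F := by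
  obtain ⟨C, A, m, hC, hA, hb⟩ := hG
  exact ⟨C, A, m, hC, hA, fun x => (hFG x).trans (hb x)⟩

lemma Gr.const (c : ℝ) : Gr k θ h (fun _ : E n => c) := by
  refine ⟨|c|, 0, 0, abs_nonneg _, le_rfl, fun x => ?_⟩
  simp

lemma Gr.add {F G : E n → ℝ} (hF : Gr k θ h F) (hG : Gr k θ h G) : Gr k θ h (fun x => F x + G x) := by
  obtain ⟨C, A, m, hC, hA, hb⟩ := hF
  obtain ⟨C', A', m', hC', hA', hb'⟩ := hG
  refine ⟨C + C', A + A', m + m', by positivity, by positivity, fun x => ?_⟩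
  have hq := one_le_Qb k θ h x
  have hx := norm_nonneg x
  have e1 : exp (A * ‖x‖) ≤ exp ((A + A') * ‖x‖) := exp_le_exp.2 (by nlinarith)
  have e2 : exp (A' * ‖x‖) ≤ exp ((A + A') * ‖x‖) := exp_le_exp.2 (by nlinarith)
  have q1 : Qb k θ h x ^ m ≤ Qb k θ h x ^ (m + m') := pow_le_pow_right₀ hq (by omega)
  have q2 : Qb k θ h x ^ m' ≤ Qb k θ h x ^ (m + m') := pow_le_pow_right₀ hq (by omega)
  have p1 : exp (A * ‖x‖) * Qb k θ h x ^ m ≤ exp ((A + A') * ‖x‖) * Qb k θ h x ^ (m + m') :=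
    mul_le_mul e1 q1 (by positivity) (by positivity)
  have p2 : exp (A' * ‖x‖) * Qb k θ h x ^ m' ≤ exp ((A + A') * ‖x‖) * Qb k θ h x ^ (m + m') :=
    mul_le_mul e2 q2 (by positivity) (by positivity)
  calc |F x + G x| ≤ |F x| + |G x| := abs_add_le _ _
    _ ≤ C * (exp (A * ‖x‖) * Qb k θ h x ^ m) + C' * (exp (A' * ‖x‖) * Qb k θ h x ^ m') := add_le_add (hb x) (hb' x)
    _ ≤ C * (exp ((A + A') * ‖x‖) * Qb k θ h x ^ (m + m')) + C' * (exp ((A + A') * ‖x‖) * Qb k θ h x ^ (m + m')) :=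
        add_le_add (mul_le_mul_of_nonneg_left p1 hC) (mul_le_mul_of_nonneg_left p2 hC')
    _ = (C + C') * (exp ((A + A') * ‖x‖) * Qb k θ h x ^ (m + m')) := by ring

lemma Gr.mul {F G : E n → ℝ} (hF : Gr k θ h F) (hG : Gr k θ h G) : Gr k θ h (fun x => F x * G x) := by
  obtain ⟨C, A, m, hC, hA, hb⟩ := hF
  obtain ⟨C', A', m', hC', hA', hb'⟩ := hG
  refine ⟨C * C', A + A', m + m', by positivity, by positivity, fun x => ?_⟩
  have hq := one_le_Qb k θ h x
  rw [abs_mul]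
  calc |F x| * |G x| ≤ (C * (exp (A * ‖x‖) * Qb k θ h x ^ m)) * (C' * (exp (A' * ‖x‖) * Qb k θ h x ^ m')) :=
        mul_le_mul (hb x) (hb' x) (abs_nonneg _) (by positivity)
    _ = C * C' * (exp ((A + A') * ‖x‖) * Qb k θ h x ^ (m + m')) := by
        rw [add_mul, exp_add, pow_add]; ring

lemma Gr.sum {κ : Type*} (s : Finset κ) {F : κ → E n → ℝ} (hF : ∀ i ∈ s, Gr k θ h (F i)) :
    Gr k θ h (fun x => ∑ i ∈ s, F i x) := by
  classical
  induction s using Finset.induction_on with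
  | empty => simpa using Gr.const (k := k) (θ := θ) (h := h) 0
  | insert a s ha ih =>
    have h1 := hF a (Finset.mem_insert_self _ _)
    have h2 := ih (fun i hi => hF i (Finset.mem_insert_of_mem hi))
    have := h1.add h2
    refine this.mono fun x => ?_
    rw [Finset.sum_insert ha]

lemma Gr.sumU {κ : Type*} [Fintype κ] {F : κ → E n → ℝ} (hF : ∀ i, Gr k θ h (F i)) :
    Gr k θ h (fun x => ∑ i, F i x) := Gr.sum _ fun i _ => hF i

lemma Gr.norm : Gr k θ h (fun x : E n => ‖x‖) := by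
  refine ⟨1, 1, 0, by norm_num, by norm_num, fun x => ?_⟩
  have := add_one_le_exp ‖x‖
  simp only [abs_norm, one_mul, pow_zero, mul_one]
  linarith

lemma Gr.coord (j : Fin n) : Gr k θ h (fun x : E n => x j) :=
  Gr.norm.mono fun x => by
    rw [abs_norm]
    exact (EuclideanSpace.norm_eq x ▸ by
      rw [← Real.sqrt_sq_eq_abs]
      exact Real.sqrt_le_sqrt (by
        have := Finset.single_le_sum (f := fun i => ‖x i‖ ^ 2) (fun i _ => by positivity) (Finset.mem_univ j)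
        simpa using this))

lemma Gr.inner_left (v : E n) : Gr k θ h (fun x : E n => inner ℝ v x) := by
  have := (Gr.const (k := k) (θ := θ) (h := h) ‖v‖).mul Gr.norm
  refine this.mono fun x => ?_
  have h1 := abs_real_inner_le_norm v x
  rw [abs_of_nonneg (show 0 ≤ ‖v‖ * ‖x‖ by positivity)]
  exact h1

lemma Gr.g2 (i : ι) : Gr k θ h (fun x : E n => G2 (k * (inner ℝ (θ i) x - h i))) := by
  refine ⟨1, 0, 1, by norm_num, le_rfl, fun x => ?_⟩
  rw [abs_of_nonneg (G2_nonneg _)]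
  simp only [zero_mul, exp_zero, one_mul, pow_one]
  unfold Qb
  have := Finset.single_le_sum (f := fun i => G2 (k * (inner ℝ (θ i) x - h i))) (fun i _ => G2_nonneg _)
    (Finset.mem_univ i)
  linarith

lemma Gr.g1 (hS : Stmt_SW0) (i : ι) : Gr k θ h (fun x : E n => G1 (k * (inner ℝ (θ i) x - h i))) := by
  refine (Gr.g2 i).mono fun x => ?_
  rw [abs_of_nonneg (G2_nonneg _), abs_of_nonneg (hS.2.2.2.2.2.2.1 _)]
  exact hS.2.2.2.2.2.2.2.1 _

lemma Gr.bdd {F : E n → ℝ} (C : ℝ) (hF : ∀ x, |F x| ≤ C) : Gr k θ h F :=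
  (Gr.const C).mono fun x => (hF x).trans (le_abs_self C)

/-- main integrability lemma -/
lemma Gr.integrable (hI : Stmt_INT) (hk : 0 < k) (hθ : Span θ) {F : E n → ℝ} (hF : Gr k θ h F)
    (hc : Continuous F) (hW : Continuous (W k θ h l)) : Integrable (fun x => F x * W k θ h l x) := by
  obtain ⟨C, A, m, hC, hA, hb⟩ := hF
  set A' := max A ‖l‖ with hA'
  obtain ⟨B, hB, hB'⟩ := hI n ι θ hθ k k (∑ i, |h i|) A' hk m
  refine (hB.const_mul C).mono' ((hc.mul hW).aestronglyMeasurable) (Eventually.of_forall fun x => ?_)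
  have h1 := hB' k h l le_rfl le_rfl (fun i => Finset.single_le_sum (f := fun i => |h i|)
    (fun i _ => abs_nonneg _) (Finset.mem_univ i)) (le_max_right _ _) x
  have hw : 0 < W k θ h l x := exp_pos _
  have hq := one_le_Qb k θ h x
  have e1 : exp (A * ‖x‖) ≤ exp (A' * ‖x‖) :=
    exp_le_exp.2 (mul_le_mul_of_nonneg_right (le_max_left _ _) (norm_nonneg _))
  rw [norm_mul, Real.norm_eq_abs, Real.norm_eq_abs, abs_of_pos hw]
  calc |F x| * W k θ h l x ≤ (C * (exp (A * ‖x‖) * Qb k θ h x ^ m)) * W k θ h l x :=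
        mul_le_mul_of_nonneg_right (hb x) hw.le
    _ ≤ (C * (exp (A' * ‖x‖) * Qb k θ h x ^ m)) * W k θ h l x := by gcongr
    _ = C * (exp (A' * ‖x‖) * Qb k θ h x ^ m * W k θ h l x) := by ring
    _ ≤ C * B x := mul_le_mul_of_nonneg_left h1 hC

lemma cont_W (hV : Stmt_VD) : Continuous (W k θ h l) := by
  have h1 : Continuous (Vpot k θ h l) := (hV n ι k θ h l).1.continuous
  exact Real.continuous_exp.comp h1.neg

lemma W_pos (x : E n) : 0 < W k θ h l x := exp_pos _

lemma integral_W_pos (hI : Stmt_INT) (hV : Stmt_VD) (hk : 0 < k) (hθ : Span θ) :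
    0 < ∫ x, W k θ h l x := by
  have hc : Continuous (W k θ h l) := cont_W hV
  have hi : Integrable (W k θ h l) := by
    have := (Gr.const (k := k) (θ := θ) (h := h) 1).integrable hI hk hθ continuous_const (l := l) hc
    simpa using this
  exact integral_pos_of_pos' hc hi
where
  integral_pos_of_pos' (hc : Continuous (W k θ h l)) (hi : Integrable (W k θ h l)) :
      0 < ∫ x, W k θ h l x := by
    rw [integral_pos_iff_support_of_nonneg (fun x => (W_pos x).le) hi]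
    have : Function.support (W k θ h l) = Set.univ := by
      ext x; simp [(W_pos (k := k) (θ := θ) (h := h) (l := l) x).ne']
    rw [this]
    exact (isOpen_univ.measure_pos volume Set.univ_nonempty)

end Pool.Agent.Work.LPBM.helper37
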